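import Pool.Agent.H113Z.Dist.Defs

set_option autoImplicit false

namespace Pool.Agent.H113Z.Dist
open Filter Topology Set

namespace H72

lemma D_id (k : ℕ) (x : ℝ) : D (k + 2) (id : ℝ → ℝ) x = 0 := by
  have h : deriv (id : ℝ → ℝ) = fun _ => 1 := by
    funext y
    exact deriv_id y
  rw [D, iteratedDeriv_succ', h, iteratedDeriv_const]
  simp

lemma D_congr {f g : ℝ → ℝ} {x : ℝ} (h : f =ᶠ[𝓝 x] g) (k : ℕ) : D k f x = D k g x :=
  h.iteratedDeriv_eq k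

lemma Bd_congr {f g : ℝ → ℝ} {x s η : ℝ} (h : f =ᶠ[𝓝 x] g) (hg : Bd g x s η) : Bd f x s η := by
  unfold Bd at hg ⊢
  rw [h.deriv_eq, D_congr h, D_congr h, D_congr h]
  exact hg

lemma Bd_id (x : ℝ) {s η : ℝ} (hs : 0 < s) (hη : 0 ≤ η) : Bd id x s η := by
  refine ⟨by simpa using hη, ?_, ?_, ?_⟩
  · rw [D_id 0, abs_zero]; positivity
  · rw [D_id 1, abs_zero]; positivity
  · rw [D_id 2, abs_zero]; positivity

lemma Bd_mono {f : ℝ → ℝ} {x s η s' η' : ℝ} (h : Bd f x s η) (hs' : 0 < s') (hs : s' ≤ 2 * s)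
    (hη : η ≤ η') : Bd f x s' (8 * η') := by
  have h0 : 0 ≤ η := (abs_nonneg _).trans h.1
  have hs0 : 0 < s := by linarith
  have key : ∀ j : ℕ, j ≤ 3 → η / s ^ j ≤ 8 * η' / s' ^ j := by
    intro j hj
    rw [div_le_div_iff₀ (by positivity) (by positivity)]
    have h1 : s' ^ j ≤ (2 * s) ^ j := pow_le_pow_left₀ hs'.le hs j
    have h2 : (2 : ℝ) ^ j ≤ 2 ^ 3 := pow_le_pow_right₀ one_le_two hj
    rw [mul_pow] at h1
    have h3 : s' ^ j ≤ 8 * s ^ j := h1.trans (mul_le_mul_of_nonneg_right (by linarith) (by positivity))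
    calc η * s' ^ j ≤ η' * (8 * s ^ j) := mul_le_mul hη h3 (by positivity) (by linarith)
      _ = 8 * η' * s ^ j := by ring
  refine ⟨by linarith [h.1], ?_, h.2.2.1.trans (key 2 (by norm_num)), h.2.2.2.trans (key 3 le_rfl)⟩
  simpa using h.2.1.trans (by simpa using key 1 (by norm_num))

lemma rpow_neg_le {b x p : ℝ} (hb : 0 < b) (hx : b / 2 ≤ x) (h0 : 0 ≤ p) (h4 : p ≤ 4) :
    x ^ (-p) ≤ 16 * b ^ (-p) := by
  have h1 : x ^ (-p) ≤ (b / 2) ^ (-p) :=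
    Real.rpow_le_rpow_of_nonpos (by linarith) hx (by linarith)
  have h2 : (2 : ℝ) ^ p ≤ 2 ^ (4 : ℝ) := Real.rpow_le_rpow_of_exponent_le one_le_two h4
  have h3 : (2 : ℝ) ^ (4 : ℝ) = 16 := by norm_num
  rw [Real.div_rpow hb.le zero_le_two, Real.rpow_neg zero_le_two, div_inv_eq_mul] at h1
  have h5 : 0 ≤ b ^ (-p) := by positivity
  nlinarith

lemma rpow_le_two {b x : ℝ} (hb : 0 < b) (hx : b / 2 ≤ x) :
    b ^ (3 / 4 : ℝ) ≤ 2 * x ^ (3 / 4 : ℝ) := by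
  have h1 : b ^ (3 / 4 : ℝ) ≤ (2 * x) ^ (3 / 4 : ℝ) :=
    Real.rpow_le_rpow hb.le (by linarith) (by norm_num)
  have h2 : (2 : ℝ) ^ (3 / 4 : ℝ) ≤ 2 ^ (1 : ℝ) :=
    Real.rpow_le_rpow_of_exponent_le one_le_two (by norm_num)
  rw [Real.mul_rpow zero_le_two (by linarith)] at h1
  rw [Real.rpow_one] at h2
  have h5 : 0 ≤ x ^ (3 / 4 : ℝ) := Real.rpow_nonneg (by linarith) _
  nlinarith

lemma ev_large (C K X : ℝ) (e0 : ℕ) : ∀ᶠ e : ℕ in atTop, e0 ≤ e ∧ 2 * X ≤ e ∧ K ≤ e ∧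
    128 * K * C ≤ (e : ℝ) ^ (1 / 20 : ℝ) ∧ 8 * C * (12 / e + 5 * ((e : ℝ) ^ 6 / 2 ^ e)) ≤ 1 := by
  have t1 : Tendsto (fun e : ℕ => (e : ℝ)) atTop atTop := tendsto_natCast_atTop_atTop
  have t2 : Tendsto (fun e : ℕ => (e : ℝ) ^ (1 / 20 : ℝ)) atTop atTop :=
    (tendsto_rpow_atTop (by norm_num)).comp t1
  have t3 : Tendsto (fun e : ℕ => 8 * C * (12 / e + 5 * ((e : ℝ) ^ 6 / 2 ^ e))) atTop
      (𝓝 (8 * C * (0 + 5 * 0))) :=
    ((tendsto_const_div_atTop_nhds_zero_nat 12).add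
      ((tendsto_pow_const_div_const_pow_of_one_lt 6 one_lt_two).const_mul 5)).const_mul _
  filter_upwards [eventually_ge_atTop e0, t1.eventually_ge_atTop (2 * X), t1.eventually_ge_atTop K,
    t2.eventually_ge_atTop (128 * K * C), t3.eventually_le_const (show _ < (1 : ℝ) by norm_num)]
    with e h1 h2 h3 h4 h5
  exact ⟨h1, h2, h3, h4, h5⟩

lemma lo_pos (k : IZ) : 0 < loZ k := by
  obtain ⟨⟨e, n⟩, h3, h1, h2⟩ := k
  simp only at h3 h1 h2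
  have a1 : (3 : ℝ) ≤ e := by exact_mod_cast h3
  have a2 : (e : ℝ) ≤ n := by exact_mod_cast h1
  have : 2 / (e : ℝ) ^ 2 ≤ 1 := by
    rw [div_le_one (by positivity)]
    nlinarith
  simp only [loZ]
  have : 0 < (n : ℝ) - 2 / (e : ℝ) ^ 2 := by linarith
  positivity

lemma lo_large (e2 : ℕ) : ∃ R, ∀ k : IZ, R ≤ loZ k → e2 ≤ k.1.1 := by
  refine ⟨2 ^ e2 * (2 * e2) + 1, ?_⟩
  rintro ⟨⟨e, n⟩, h3, h1, h2⟩ h
  simp only [loZ] at h3 h1 h2 h ⊢
  by_contra hlt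
  push Not at hlt
  have a1 : (n : ℝ) ≤ 2 * e2 := by
    have : n ≤ 2 * e2 := by omega
    exact_mod_cast this
  have a2 : (2 : ℝ) ^ e ≤ 2 ^ e2 := pow_le_pow_right₀ one_le_two hlt.le
  have a3 : 0 ≤ 2 / (e : ℝ) ^ 2 := by positivity
  have a4 : (2 : ℝ) ^ e * ((n : ℝ) - 2 / (e : ℝ) ^ 2) ≤ 2 ^ e * (2 * e2) :=
    mul_le_mul_of_nonneg_left (by linarith) (by positivity)
  have a5 : (2 : ℝ) ^ e * (2 * e2) ≤ 2 ^ e2 * (2 * e2) :=
    mul_le_mul_of_nonneg_right a2 (by positivity)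
  linarith

lemma point (hP : PerfStmt) (hC : CutStmt) (i : ℕ) (ρ : Pm) (hρ : Rem i ρ) :
    ∃ (e1 : ℕ) (δ : ℕ → ℝ), Tendsto δ atTop (𝓝 0) ∧ ∀ k : IZ, ∃ P1 Q1 P2 Q2 : Pm,
      (∀ f ∈ [P1, Q1, P2, Q2], G2 f ∧ Supp f (loZ k) (hiZ k) ∧
        ∀ x, |D 2 f x| ≤ δ k.1.1 / loZ k ^ 2) ∧
      (e1 ≤ k.1.1 → ∀ x : ℝ,
        ((k.1.2 + 2 * i < 2 * k.1.1 ∧ |x - 2 ^ k.1.1 * k.1.2| ≤ 2 * rz k.1.1) →
          (cm P1 Q1 * cm P2 Q2) x = ρ x) ∧
        (¬ (k.1.2 + 2 * i < 2 * k.1.1 ∧ |x - 2 ^ k.1.1 * k.1.2| ≤ 2 * rz k.1.1) →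
          (cm P1 Q1 * cm P2 Q2) x = x)) := by
  obtain ⟨K, hK, hP⟩ := hP
  obtain ⟨hG, C, X, e0, hC0, r1, r2, r3, -⟩ := hρ
  obtain ⟨e1, he1⟩ := eventually_atTop.1 (ev_large C K X e0)
  have hK0 : 0 < K := by linarith
  refine ⟨e1, fun e => K * (144 * C / (e : ℝ) ^ (1 / 20 : ℝ) + 4 / e), ?_, ?_⟩
  · have t2 : Tendsto (fun e : ℕ => (e : ℝ) ^ (1 / 20 : ℝ)) atTop atTop :=
      (tendsto_rpow_atTop (by norm_num)).comp tendsto_natCast_atTop_atTop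
    simpa using ((t2.const_div_atTop (144 * C)).add
      (tendsto_const_div_atTop_nhds_zero_nat 4)).const_mul K
  intro k
  have hlo := lo_pos k
  by_cases hv : e1 ≤ k.1.1 ∧ k.1.2 + 2 * i < 2 * k.1.1
  swap
  · refine ⟨1, 1, 1, 1, ?_, fun h x => ⟨fun h' => absurd ⟨h, h'.1⟩ hv, fun _ => by simp [cm]⟩⟩
    intro f hf
    have : f = 1 := by simpa using hf
    subst this
    refine ⟨⟨contDiff_id, strictMono_id⟩, fun _ _ => rfl, fun x => ?_⟩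
    rw [Equiv.Perm.coe_one, D_id 0, abs_zero]
    positivity
  obtain ⟨⟨e, n⟩, h3, h1, h2⟩ := k
  simp only at h3 h1 h2 hv hlo ⊢
  obtain ⟨g0, g1, g2, g3, g4⟩ := he1 e hv.1
  have a1 : (3 : ℝ) ≤ e := by exact_mod_cast h3
  have a2 : (e : ℝ) ≤ n := by exact_mod_cast h1
  have a3 : (n : ℝ) ≤ 2 * e := by exact_mod_cast h2
  have e0' : (0 : ℝ) < e := by linarith
  have hE : (8 : ℝ) ≤ 2 ^ e := by
    calc (8 : ℝ) = 2 ^ 3 := by norm_num
      _ ≤ 2 ^ e := pow_le_pow_right₀ one_le_two h3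
  obtain ⟨E, hEd⟩ : ∃ E : ℝ, E = 2 ^ e := ⟨_, rfl⟩
  have hlo' : loZ ⟨(e, n), h3, h1, h2⟩ = E * n - 2 * (E / e ^ 2) := by
    simp only [loZ, hEd]
    ring
  have hhi' : hiZ ⟨(e, n), h3, h1, h2⟩ = E * n + 4 * (E / e ^ 2) := by
    simp only [hiZ, hEd]
    ring
  have hr : rz e = 3 * E / e ^ 14 := by rw [rz, hEd]
  have r2' := fun m h h' => r2 e m g0 h h'
  have r3' := r3 e n g0 h1 hv.2
  rw [hlo'] at hlo
  rw [hlo', hhi']
  rw [← hEd] at hE g4 r2' r3' ⊢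
  clear r2 r3 he1 hlo' hhi' hEd
  have E0 : 0 < E := by linarith
  have p7 : (12 : ℝ) ≤ e ^ 7 := by
    calc (12 : ℝ) ≤ 3 ^ 7 := by norm_num
      _ ≤ e ^ 7 := pow_le_pow_left₀ (by norm_num) a1 7
  have p12 : (12 : ℝ) ≤ e ^ 12 := by
    calc (12 : ℝ) ≤ 3 ^ 12 := by norm_num
      _ ≤ e ^ 12 := pow_le_pow_left₀ (by norm_num) a1 12
  have hr0 : 0 < rz e := by rw [hr]; positivity
  have hr1 : 4 * rz e ≤ E / e ^ 2 := by
    rw [hr, show (e : ℝ) ^ 14 = e ^ 12 * e ^ 2 by ring, ← div_div, ← mul_div_assoc]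
    refine div_le_div_of_nonneg_right ?_ (by positivity)
    rw [← mul_div_assoc, div_le_iff₀ (by positivity)]
    nlinarith
  have hl1 : E / e ^ 2 ≤ E := div_le_self E0.le (by nlinarith)
  obtain ⟨b, hb⟩ : ∃ b : ℝ, b = E * n := ⟨_, rfl⟩
  have b1 : E * e ≤ b := hb ▸ mul_le_mul_of_nonneg_left a2 E0.le
  have b2 : b ≤ 2 * e * E := by rw [hb]; nlinarith
  have b3 : 3 * E ≤ b := by nlinarith
  have b4 : (e : ℝ) ≤ b := by nlinarith
  have b0 : 0 < b := by linarith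
  rw [← hb] at r3' hlo ⊢
  obtain ⟨u, u1, u2, u3, u4⟩ := hC ρ (b - 2 * rz e) (b + 2 * rz e) hG (by linarith)
    (by
      filter_upwards [Ioo_mem_nhds (show E * ((n : ℝ) - 1) + rz e < b - 2 * rz e by
        rw [hb]; linarith) (show b - 2 * rz e < E * n - rz e by rw [hb]; linarith)] with x hx
      exact r2' n h1 hv.2.le x hx.1.le hx.2.le)
    (by
      filter_upwards [Ioo_mem_nhds (show E * (((n + 1 : ℕ) : ℝ) - 1) + rz e < b + 2 * rz e by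
        rw [hb]; push_cast; linarith) (show b + 2 * rz e < E * ((n + 1 : ℕ) : ℝ) - rz e by
        rw [hb]; push_cast; linarith)] with x hx
      exact r2' (n + 1) (by omega) (by omega) x hx.1.le hx.2.le)
  have hcase : ∀ x, (x ∈ Icc (b - 2 * rz e) (b + 2 * rz e) ∧ b / 2 ≤ x ∧ X ≤ x) ∨
      (x ≤ b - 2 * rz e ∨ b + 2 * rz e ≤ x) := by
    intro x
    by_cases h : x ≤ b - 2 * rz e ∨ b + 2 * rz e ≤ x
    · exact Or.inr h
    · push Not at h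
      exact Or.inl ⟨⟨h.1.le, h.2.le⟩, by linarith [h.1], by linarith [h.1]⟩
  obtain ⟨w, hw⟩ : ∃ w : ℝ, w = b ^ (1 / 20 : ℝ) := ⟨_, rfl⟩
  have hwn : ∀ (m : ℕ) (p : ℝ), p = m / 20 → b ^ p = w ^ m := by
    intro m p hp
    rw [hw, ← Real.rpow_natCast, ← Real.rpow_mul b0.le, hp]
    congr 1
    ring
  have w20 : b = w ^ 20 := by rw [← hwn 20 1 (by norm_num), Real.rpow_one]
  have w15 : b ^ (3 / 4 : ℝ) = w ^ 15 := hwn 15 _ (by norm_num)
  have w25 : b ^ (-(5 / 4) : ℝ) = (w ^ 25)⁻¹ := by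
    rw [Real.rpow_neg b0.le, hwn 25 _ (by norm_num)]
  have w76 : b ^ (-(19 / 5) : ℝ) = (w ^ 76)⁻¹ := by
    rw [Real.rpow_neg b0.le, hwn 76 _ (by norm_num)]
  obtain ⟨W, hW⟩ : ∃ W : ℝ, W = (e : ℝ) ^ (1 / 20 : ℝ) := ⟨_, rfl⟩
  have W1 : 1 ≤ W := hW ▸ Real.one_le_rpow (by linarith) (by norm_num)
  have Ww : W ≤ w := by
    rw [hW, hw]
    exact Real.rpow_le_rpow e0'.le b4 (by norm_num)
  have w1 : 1 ≤ w := W1.trans Ww
  have w0 : 0 < w := by linarith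
  have Wm : ∀ m : ℕ, W ≤ w ^ (m + 1) := fun m => Ww.trans (le_self_pow₀ w1 (Nat.succ_ne_zero m))
  rw [← hW] at g3 ⊢
  obtain ⟨l, hl⟩ : ∃ l : ℕ, l = ⌈12 * E / e ^ 7⌉₊ + 4 := ⟨_, rfl⟩
  have l1 : 12 * E / e ^ 7 + 4 ≤ l := by
    rw [hl]
    push_cast
    linarith [Nat.le_ceil (12 * E / e ^ 7)]
  have l2 : (l : ℝ) ≤ 12 * E / e ^ 7 + 5 := by
    rw [hl]
    push_cast
    linarith [Nat.ceil_lt_add_one (show 0 ≤ 12 * E / e ^ 7 by positivity)]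
  have l3 : (l : ℝ) ≤ b := by
    have : 12 * E / e ^ 7 ≤ E := by
      rw [div_le_iff₀ (by positivity)]
      nlinarith
    linarith
  have τ1 : 1 / (e : ℝ) ^ 7 ≤ 1 := by
    rw [div_le_one (by positivity)]
    linarith
  have hD2 : ∀ x, |D 2 u x| ≤ 16 * C * (w ^ 76)⁻¹ := by
    intro x
    rcases hcase x with ⟨hx, hx1, -⟩ | hx
    · rw [D_congr (u3 x hx)]
      refine (r3' x (abs_le.2 ⟨by linarith [hx.1], by linarith [hx.2]⟩)).trans ?_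
      have := rpow_neg_le b0 hx1 (p := 19 / 5) (by norm_num) (by norm_num)
      rw [w76] at this
      rw [show (-19 / 5 : ℝ) = -(19 / 5) by norm_num]
      nlinarith
    · rw [D_congr (u4 x hx), D_id 0, abs_zero]
      positivity
  obtain ⟨P1, Q1, P2, Q2, hu, hf⟩ := hP u (b - 2 * rz e) (b + 2 * rz e) (w ^ 15)
    (128 * C * (w ^ 25)⁻¹) (2 * C / b) (1 / e ^ 7) l (16 * C * (w ^ 76)⁻¹) 0 0 ∅ (E / e ^ 2)
    ⟨u1, u2, by linarith, by positivity, τ1.trans (one_le_pow₀ w1), by positivity, by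
      intro x
      rcases hcase x with ⟨hx, hx1, hx2⟩ | hx
      · refine Bd_congr (u3 x hx) ?_
        have h5 := rpow_neg_le b0 hx1 (p := 5 / 4) (by norm_num) (by norm_num)
        have h6 := rpow_le_two b0 hx1
        rw [w25] at h5
        rw [w15] at h6
        have h7 := Bd_mono (r1 x hx2).2 (by positivity) h6 (η' := 16 * C * (w ^ 25)⁻¹) (by
          rw [show (-5 / 4 : ℝ) = -(5 / 4) by norm_num]
          nlinarith)
        rwa [show 8 * (16 * C * (w ^ 25)⁻¹) = 128 * C * (w ^ 25)⁻¹ by ring] at h7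
      · exact Bd_congr (u4 x hx) (Bd_id x (by positivity) (by positivity)), by
      intro x
      rcases hcase x with ⟨hx, hx1, hx2⟩ | hx
      · rw [(u3 x hx).eq_of_nhds]
        refine (r1 x hx2).1.trans ?_
        rw [div_le_div_iff₀ (by linarith) b0]
        nlinarith
      · rw [u2 x hx, sub_self, abs_zero]
        positivity, by
      refine le_trans (le_of_eq ?_) l1
      rw [hr]
      field_simp
      ring, by
      have h5 : K * l * (128 * C * (w ^ 25)⁻¹) ≤ K * b * (128 * C * (w ^ 25)⁻¹) := by gcongr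
      refine h5.trans ?_
      rw [w20, show K * w ^ 20 * (128 * C * (w ^ 25)⁻¹) = 128 * K * C / w ^ 5 by field_simp,
        div_le_one (by positivity)]
      exact g3.trans (Wm 4), by
      have h5 : 4 * l * (2 * C / b) ≤ 4 * (12 * E / e ^ 7 + 5) * (2 * C / (E * e)) := by gcongr
      refine h5.trans ?_
      rw [show 4 * (12 * E / e ^ 7 + 5) * (2 * C / (E * e))
        = 8 * C * (12 / e + 5 * (e ^ 6 / E)) / e ^ 7 by field_simp; ring]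
      gcongr, by positivity, le_rfl, le_rfl, fun x => by simpa using hD2 x, fun x _ => hD2 x⟩
    (by
      rw [mul_one_div, div_le_div_iff₀ (by positivity) (by positivity)]
      have h5 : K * e ^ 2 ≤ e * e ^ 2 := by gcongr
      have h6 : (e : ℝ) ^ 3 ≤ e ^ 7 := pow_le_pow_right₀ (by linarith) (by norm_num)
      nlinarith)
  refine ⟨P1, Q1, P2, Q2, fun f hf' => ⟨(hf f hf').1, fun x hx => (hf f hf').2.1 x ?_,
    fun x => ((hf f hf').2.2 x).trans ?_⟩, fun _ x => ⟨fun h => ?_, fun h => ?_⟩⟩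
  · rcases hx with hx | hx
    · left
      linarith
    · right
      linarith
  · rw [le_div_iff₀ (by positivity), mul_assoc]
    refine mul_le_mul_of_nonneg_left ?_ hK0.le
    have hl0 : 0 ≤ E / e ^ 2 := by positivity
    have c0 : (b - 2 * (E / e ^ 2)) ^ 2 ≤ b ^ 2 := pow_le_pow_left₀ hlo.le (by linarith) 2
    simp only [Om, Finset.card_empty, Nat.cast_zero, zero_mul, add_zero]
    have c1 : l * (16 * C * (w ^ 76)⁻¹) * b ^ 2 ≤ 16 * C / W := by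
      have h5 : l * (16 * C * (w ^ 76)⁻¹) * b ^ 2 ≤ b * (16 * C * (w ^ 76)⁻¹) * b ^ 2 := by gcongr
      refine h5.trans ?_
      rw [w20, show w ^ 20 * (16 * C * (w ^ 76)⁻¹) * (w ^ 20) ^ 2 = 16 * C / w ^ 16 by field_simp]
      gcongr
      exact Wm 15
    have c2 : l * (128 * C * (w ^ 25)⁻¹) * (1 / e ^ 7) ^ 2 / (w ^ 15) ^ 3 * b ^ 2
        ≤ 128 * C / W := by
      have h5 : l * (128 * C * (w ^ 25)⁻¹) * (1 / e ^ 7) ^ 2 / (w ^ 15) ^ 3 * b ^ 2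
          ≤ b * (128 * C * (w ^ 25)⁻¹) * 1 ^ 2 / (w ^ 15) ^ 3 * b ^ 2 := by gcongr
      refine h5.trans ?_
      rw [w20, show w ^ 20 * (128 * C * (w ^ 25)⁻¹) * 1 ^ 2 / (w ^ 15) ^ 3 * (w ^ 20) ^ 2
        = 128 * C / w ^ 10 by field_simp]
      gcongr
      exact Wm 9
    have c3 : 1 / e ^ 7 / (E / e ^ 2) ^ 2 * b ^ 2 ≤ 4 / e := by
      have h5 : 1 / e ^ 7 / (E / e ^ 2) ^ 2 * b ^ 2
          ≤ 1 / e ^ 7 / (E / e ^ 2) ^ 2 * (2 * e * E) ^ 2 := by gcongr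
      refine h5.trans (le_of_eq ?_)
      field_simp
      ring
    refine (mul_le_mul_of_nonneg_left c0 (by positivity)).trans ?_
    rw [add_mul, add_mul, show 144 * C / W = 16 * C / W + 128 * C / W by ring]
    linarith
  · rw [← hu]
    have := abs_le.1 h.2
    exact (u3 x ⟨by linarith [this.1], by linarith [this.2]⟩).eq_of_nhds
  · rw [← hu]
    refine u2 x ?_
    by_contra h'
    push Not at h'
    exact h ⟨hv.2, abs_le.2 ⟨by linarith [h'.1], by linarith [h'.2]⟩⟩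

end H72

theorem zone (hP : PerfStmt) (hC : CutStmt) : ZoneStmt := by
  intro i ρ hρ
  obtain ⟨e1, δ, hδ, h⟩ := H72.point hP hC i ρ hρ
  choose P1 Q1 P2 Q2 h1 h2 using h
  have key : ∀ P : IZ → Pm, (∀ k, P k ∈ [P1 k, Q1 k, P2 k, Q2 k]) → Sm loZ hiZ P := by
    intro P hP
    refine ⟨fun k => ⟨(h1 k _ (hP k)).1, (h1 k _ (hP k)).2.1⟩, fun ε hε => ?_⟩
    obtain ⟨e2, he2⟩ := eventually_atTop.1 (hδ.eventually_le_const hε)
    obtain ⟨R, hR⟩ := H72.lo_large e2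
    refine ⟨R, fun k hk x => ((h1 k _ (hP k)).2.2 x).trans ?_⟩
    exact div_le_div_of_nonneg_right (he2 _ (hR k hk)) (by positivity)
  obtain ⟨R, hR⟩ := H72.lo_large e1
  exact ⟨P1, Q1, P2, Q2, key _ (by simp), key _ (by simp), key _ (by simp), key _ (by simp),
    R, fun k hk => h2 k (hR k hk)⟩

end Pool.Agent.H113Z.Dist
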